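import Mathlib
import Pool.Agent.helper81.DI.SpecC

/-! Module di:C10 (MP_baa4d7_al): blocks and `E`-invariant central elements. -/

set_option autoImplicit false

namespace Pool.Agent.DI

open Pool.Agent.helper58.DC

theorem C10_ext_apply {K Γ : Type} [Group K] [Group Γ] (i : K →* Γ)
    (hi : Function.Injective i) (z : K → ℂ) (x : K) : ext0 i z (i x) = z x := by
  unfold ext0
  exact hi.extend_apply z 0 x

theorem C10_ext_off {K Γ : Type} [Group K] [Group Γ] (i : K →* Γ) (z : K → ℂ) (y : Γ)
    (hy : ¬ ∃ x, i x = y) : ext0 i z y = 0 := by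
  unfold ext0
  rw [Function.extend_apply' _ _ _ hy]
  rfl

theorem C10_ext_one {K Γ : Type} [Group K] [Group Γ] (i : K →* Γ)
    (hi : Function.Injective i) (z : K → ℂ) : ext0 i z 1 = z 1 := by
  have h := C10_ext_apply i hi z 1
  rwa [map_one] at h

theorem C10_ext_sum {K Γ : Type} [Group K] [Group Γ] (i : K →* Γ)
    (hi : Function.Injective i) (z ψ : K → ℂ) :
    ∑ᶠ y, ext0 i z y * ext0 i ψ y = ∑ᶠ x, z x * ψ x := by
  have h1 : ∑ᶠ y ∈ Set.range i, ext0 i z y * ext0 i ψ y = ∑ᶠ x, z x * ψ x := by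
    rw [finsum_mem_range hi]
    exact finsum_congr fun x => by rw [C10_ext_apply i hi, C10_ext_apply i hi]
  rw [← h1]
  refine finsum_congr fun y => ?_
  by_cases hy : y ∈ Set.range i
  · simp [hy]
  · have h2 : ext0 i z y = 0 := C10_ext_off i z y hy
    rw [h2]
    simp [hy]

theorem C10_ext_cc {K Γ : Type} [Group K] [Group Γ] (i : K →* Γ)
    (hi : Function.Injective i) (z ψ : K → ℂ) : cc (ext0 i ψ) (ext0 i z) = cc ψ z := by
  unfold cc
  rw [C10_ext_sum i hi, C10_ext_one i hi]

theorem C10_isZO_funMap {K : Type} [Group K] (α : MulAut K) {z : K → ℂ} (hz : IsZO z) :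
    IsZO (funMap α z) := by
  refine ⟨fun x y => ?_, fun x => hz.2 _⟩
  unfold funMap
  rw [map_mul, map_mul, map_inv]
  exact hz.1 _ _

theorem C10_cv_funMap {K : Type} [Group K] (α : MulAut K) (z w : K → ℂ) :
    cv (funMap α z) (funMap α w) = funMap α (cv z w) := by
  funext g
  unfold cv funMap
  rw [← finsum_comp_equiv (α : MulAut K).toEquiv]
  refine finsum_congr fun x => ?_
  have h1 : (α : MulAut K).toEquiv x = α x := rfl
  have h2 : α⁻¹ (α x) = x := by
    rw [← MulAut.mul_apply]
    simp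
  rw [h1, map_mul, map_inv, h2]

theorem C10_cc_funMap {K : Type} [Group K] (α : MulAut K) (χ z : K → ℂ) :
    cc χ (funMap α z) = cc (funMap α⁻¹ χ) z := by
  unfold cc funMap
  rw [← finsum_comp_equiv (α : MulAut K).toEquiv, inv_inv, map_one]
  congr 1
  refine finsum_congr fun x => ?_
  have h1 : (α : MulAut K).toEquiv x = α x := rfl
  rw [h1]
  have h2 : α⁻¹ (α x) = x := by
    rw [← MulAut.mul_apply]
    simp
  rw [h2]

theorem C10_funMap_mul {K : Type} [Group K] (α β : MulAut K) (z : K → ℂ) :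
    funMap α (funMap β z) = funMap (α * β) z := by
  funext g
  unfold funMap
  rw [mul_inv_rev, MulAut.mul_apply]

theorem C10_cc_one {K : Type} [Group K] (ψ : K → ℂ) (h : ψ 1 ≠ 0) (d : K → ℂ)
    (h1 : d 1 = 1) (h2 : ∀ x, x ≠ 1 → d x = 0) : cc ψ d = 1 := by
  unfold cc
  rw [finsum_eq_single _ (1 : K), h1, one_mul, div_self h]
  intro x hx
  rw [h2 x hx, zero_mul]

theorem C10_ext_range_conj {G E A : Type} [Group G] [Group E] [Group A]
    (X : Extension G E A) (e : E) (y : E) :
    (∃ x, X.inc x = e * y * e⁻¹) ↔ ∃ x, X.inc x = y := by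
  rw [← X.exact, ← X.exact, map_mul, map_mul, map_inv]
  constructor
  · intro h
    have h1 : X.proj y = (X.proj e)⁻¹ * (X.proj e * X.proj y * (X.proj e)⁻¹) * X.proj e := by
      group
    rw [h1, h]
    group
  · intro h
    rw [h]
    group

theorem C10_omega_off {G E A : Type} [Group G] [Group E] [Group A]
    (X : Extension G E A) (ψ : G → ℂ) (g : E) (hg : ¬ ∃ x, X.inc x = g) :
    omega (ext0 X.inc ψ) g = 0 := by
  unfold omega
  have h : ∑ᶠ x ∈ conjugatesOf g, ext0 X.inc ψ x = 0 := by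
    rw [finsum_mem_congr rfl (g := fun _ => (0 : ℂ))]
    · simp
    · intro x hx
      rw [conjugatesOf, Set.mem_ofPred_eq, isConj_iff] at hx
      obtain ⟨c, rfl⟩ := hx
      exact C10_ext_off _ _ _ fun h => hg ((C10_ext_range_conj X c g).1 h)
  rw [h, zero_div]

theorem C10 (hC1 : C1_stmt) (hC2 : C2_stmt) (hC3 : C3_stmt) (hC4 : C4_stmt)
    (hTI : TI_stmt) (hIRF : IRF_stmt) : C10_stmt := by
  classical
  intro G E A _ _ _ _ _ X p _ M hM hp b hb χ hχ hst hcong
  obtain ⟨crefl, csymm, ctrans, cadd, cmul, cprime, cnat, -, -, -⟩ := hC1 p M hM hp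
  obtain ⟨hint, hcls, hind, homint⟩ := hC3 G
  by_contra hcon
  have hcon' : ∃ g, ¬ Mcong M (omega b g) (omega χ g) := by
    by_contra hall
    push Not at hall
    exact hcon hall
  obtain ⟨g, hg⟩ := hcon'
  have hb1 : b 1 ≠ 0 := by
    obtain ⟨n, hn, hbn⟩ := ((hIRF G).2 b hb).1
    rw [hbn]
    exact_mod_cast hn.ne'
  have hχ1 : χ 1 ≠ 0 := by
    obtain ⟨n, hn, hbn⟩ := ((hIRF G).2 χ hχ).1
    rw [hbn]
    exact_mod_cast hn.ne'
  have hbint : IsIntegral ℤ (omega b g) := homint ⊤ b ((hTI G b).2 hb) g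
  -- the element z
  set cl : G → ℂ := fun x => if x ∈ conjugatesOf g then 1 else 0 with hcl
  set z : G → ℂ := fun x => cl x - omega b g * (if x = 1 then 1 else 0) with hz
  have hzZO : IsZO z := by
    obtain ⟨h1, h2⟩ := (hcls b g).2
    refine ⟨fun x y => ?_, fun x => ?_⟩
    · rw [hz]
      have h3 : (y * x * y⁻¹ = 1) ↔ x = 1 := by
        rw [mul_inv_eq_one, mul_eq_left]
      have h4 : cl (y * x * y⁻¹) = cl x := h1 x y
      simp only [h4, h3]
    · rw [hz]
      refine (h2 x).sub (hbint.mul ?_)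
      by_cases hx : x = 1
      · simp only [hx, if_true]
        exact isIntegral_one
      · simp only [hx, if_false]
        exact isIntegral_zero
  have hccz : ∀ ψ : G → ℂ, ψ 1 ≠ 0 → cc ψ z = omega ψ g - omega b g := by
    intro ψ hψ
    have h1 : cc ψ cl = omega ψ g := ((hcls ψ g).1).symm
    have h2 : cc ψ (fun x : G => if x = 1 then (1 : ℂ) else 0) = 1 :=
      C10_cc_one ψ hψ _ (by simp) (fun x hx => by simp [hx])
    have h3 : cc ψ z = cc ψ cl - omega b g * cc ψ (fun x : G => if x = 1 then (1 : ℂ) else 0) := by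
      have := Fintype.ofFinite G
      unfold cc
      simp only [finsum_eq_sum_of_fintype, hz]
      rw [mul_div_assoc', ← sub_div, Finset.mul_sum, ← Finset.sum_sub_distrib]
      congr 1
      refine Finset.sum_congr rfl fun x _ => ?_
      ring
    rw [h3, h1, h2, mul_one]
  have hbz : cc b z = 0 := by rw [hccz b hb1, sub_self]
  have hχz : ¬ Mcong M (cc χ z) 0 := by
    rw [hccz χ hχ1]
    intro h
    apply hg
    obtain ⟨c, hc, hc'⟩ := h
    apply csymm
    exact ⟨c, hc, by rw [← hc', sub_zero]⟩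
  -- the ring
  obtain ⟨R, instR, j, hinj, hZO, hmul, hadd, hone⟩ := hC2 G
  have hex : ∀ e : E, ∃ a : R, j a = funMap (X.act e) z := fun e =>
    (hZO _).1 (C10_isZO_funMap _ hzZO)
  choose r hr using hex
  have := Fintype.ofFinite E
  set W : R := ∏ e : E, r e with hW
  have hinv : ∀ e' : E, funMap (X.act e') (j W) = j W := by
    intro e'
    have hf0 : ∀ a : R, ∃ a' : R, j a' = funMap (X.act e') (j a) := fun a =>
      (hZO _).1 (C10_isZO_funMap _ ((hZO _).2 ⟨a, rfl⟩))
    choose f hf using hf0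
    let φ : R →* R :=
      { toFun := f
        map_one' := hinj (by
          rw [hf, hone]
          funext x
          unfold funMap
          simp)
        map_mul' := fun a a' => hinj (by
          rw [hf, hmul, hmul, hf, hf, C10_cv_funMap]) }
    have hφ : ∀ e, φ (r e) = r (e' * e) := by
      intro e
      apply hinj
      have h1 : j (φ (r e)) = funMap (X.act e') (j (r e)) := hf _
      rw [h1, hr, hr, C10_funMap_mul, ← map_mul]
    have h2 : φ W = W := by
      rw [hW, map_prod, Finset.prod_congr rfl fun e _ => hφ e]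
      exact Equiv.prod_comp (Equiv.mulLeft e') r
    have h3 : j (φ W) = funMap (X.act e') (j W) := hf _
    rw [← h3, h2]
  have hkey : ∀ ψ ∈ Irr G, ψ 1 ≠ 0 → cc ψ (j W) = ∏ e : E, cc ψ (funMap (X.act e) z) := by
    intro ψ hψ hψ1
    let κ : R →* ℂ :=
      { toFun := fun a => cc ψ (j a)
        map_one' := by
          rw [hone]
          exact C10_cc_one ψ hψ1 _ (by simp) (fun x hx => by simp [hx])
        map_mul' := fun a a' => by
          rw [hmul]
          exact (hC4 G).2.2 ψ hψ _ _ ((hZO _).2 ⟨a, rfl⟩) }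
    have h1 : κ W = ∏ e : E, κ (r e) := by rw [hW, map_prod]
    have h2 : κ W = cc ψ (j W) := rfl
    rw [← h2, h1]
    refine Finset.prod_congr rfl fun e _ => ?_
    have h3 : κ (r e) = cc ψ (j (r e)) := rfl
    rw [h3, hr]
  have hbW : cc b (j W) = 0 := by
    rw [hkey b hb hb1]
    refine Finset.prod_eq_zero (Finset.mem_univ (1 : E)) ?_
    have h1 : funMap (X.act 1) z = z := by
      funext x
      unfold funMap
      simp
    rw [h1, hbz]
  have hint' : ∀ e : E, IsIntegral ℤ (cc χ (funMap (X.act e) z)) := by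
    intro e
    have h1 := C10_isZO_funMap (X.act e) hzZO
    exact hint ⊤ χ ((hTI G χ).2 hχ) _ (fun l _ x => h1.1 x l) h1.2
  have hne : ∀ e : E, ¬ Mcong M (cc χ (funMap (X.act e) z)) 0 := by
    intro e h
    apply hχz
    rw [C10_cc_funMap, ← map_inv] at h
    have h1 : Mcong M (cc (funMap (X.act e⁻¹) χ) z) (cc χ z) :=
      hind p M hM hp _ _ (hst e⁻¹) z hzZO
    exact ctrans _ _ _ (csymm _ _ h1) h
  have hχW : ¬ Mcong M (cc χ (j W)) 0 := by
    rw [hkey χ hχ hχ1]
    have hall : ∀ s : Finset E, IsIntegral ℤ (∏ e ∈ s, cc χ (funMap (X.act e) z)) ∧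
        ¬ Mcong M (∏ e ∈ s, cc χ (funMap (X.act e) z)) 0 := by
      intro s
      induction s using Finset.induction_on with
      | empty =>
        refine ⟨by rw [Finset.prod_empty]; exact isIntegral_one, ?_⟩
        rw [Finset.prod_empty]
        intro h
        have h1 := (cnat 1).1 (by exact_mod_cast h)
        exact (Fact.out : p.Prime).one_lt.ne' (Nat.dvd_one.1 h1)
      | insert a s ha ih =>
        rw [Finset.prod_insert ha]
        refine ⟨(hint' a).mul ih.1, fun h => ?_⟩
        rcases cprime _ _ (hint' a) ih.1 h with h | h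
        · exact hne a h
        · exact ih.2 h
    exact (hall Finset.univ).2
  -- transport to E
  have hWZO : IsZO (j W) := (hZO _).2 ⟨W, rfl⟩
  have hWE : IsZO (ext0 X.inc (j W)) := by
    refine ⟨fun x y => ?_, fun x => ?_⟩
    · by_cases hx : ∃ k, X.inc k = x
      · obtain ⟨k, rfl⟩ := hx
        rw [← X.act_spec, C10_ext_apply _ X.inc_injective, C10_ext_apply _ X.inc_injective]
        have h1 := congrFun (hinv y) (X.act y k)
        unfold funMap at h1
        rw [← h1]
        congr 1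
        rw [← MulAut.mul_apply]
        simp
      · rw [C10_ext_off _ _ _ hx, C10_ext_off _ _ _ fun h => hx ((C10_ext_range_conj X y x).1 h)]
    · by_cases hx : ∃ k, X.inc k = x
      · obtain ⟨k, rfl⟩ := hx
        rw [C10_ext_apply _ X.inc_injective]
        exact hWZO.2 k
      · rw [C10_ext_off _ _ _ hx]
        exact isIntegral_zero
  have hindE : Induces M (ext0 X.inc b) (ext0 X.inc χ) := by
    intro y
    by_cases hy : ∃ k, X.inc k = y
    · exact hcong y hy
    · rw [C10_omega_off X b y hy, C10_omega_off X χ y hy]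
      exact ⟨0, M.zero_mem, by simp⟩
  have hfin : Mcong M (cc (ext0 X.inc b) (ext0 X.inc (j W)))
      (cc (ext0 X.inc χ) (ext0 X.inc (j W))) :=
    (hC3 E).2.2.1 p M hM hp _ _ hindE _ hWE
  rw [C10_ext_cc _ X.inc_injective, C10_ext_cc _ X.inc_injective, hbW] at hfin
  exact hχW (csymm _ _ hfin)

end Pool.Agent.DI
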